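import Pool.Agent.U554.TW.Ab

/-!
# The motivic Sato-Tate conjecture, bilinear equations, and the cubics `T(x, y, z) = 1`

Let `k` be a finitely generated field of characteristic `0`, `ℓ` a prime number, `K` an algebraic closure
of `ℚ_ℓ`.

* `𝓜` is the category `Mot_k` (motivated cycles, or absolute Hodge cycles), an abelian category,
  `ω : 𝓜 ⥤ ModuleCat K` the Betti fibre functor tensored with `K` (by comparison this is also the
  `ℓ`-adic one tensored with `K`), and `tate n` is the Tate motive `ℚ(n)`.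
* `𝒢` is the group of the `K`-valued points of the motivic Galois group, the group of the tensor
  automorphisms of `ω`; `Γ` is the subgroup of the `K`-valued points of its `ℓ`-adic monodromy group. For
  a motive `M` the groups `𝒢_k(M)(K)` and `G_{ℓ, k}(M)(K)` are the groups of the automorphisms
  `g.hom.app M` of `ω M`, for `g` in `𝒢` and `Γ`, respectively.
* If `M` is pure of weight `w`, the multiplier `χ` of a polarization `M ⊗ M → ℚ(-w)` is the action on
  `ℚ(-w)`. So `𝒢_{1, k}(M)(K)` and `G_{1, ℓ, k}(M)(K)` consist of the `g.hom.app M`, `g` in `𝒢` and in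
  `Γ`, respectively, such that `g` is the identity on `ω (tate (-w))`, and `SatoTate w M` is the equation
  `G_{1, ℓ, k}(M) = 𝒢_{1, k}(M)_{ℚ_ℓ}` of the problem.
* `O w b m X`, for the separated schemes `X` of finite type over `k`, is the graded piece
  `gr^W_w H_{m + 2 b}(X)(-b)` of weight `w` of the Borel-Moore homology of `X`; for `X` smooth of pure
  dimension `d`, `H_{m + 2 b}(X)(-b)` is the cohomology `H^{2 j - m}(X)(j)`, `j = d - b`. It is a pure
  motive of weight `w`. For `X = V` smooth and proper `H_{m + 2 b}(V)(-b)` is pure of weight `-m`; so the objects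
  `O w b (-w) V` are the groups `H^i(V)(c)`, `i - 2 c = w`, and the motives which are pure of weight `w` are
  the direct factors of these objects.

`IsMotivic` lists the known properties which are used. Let `T` be a trilinear form in three blocks
`x`, `y`, `z` of `a₁`, `a₂`, `a₃` variables.

* `zeroS T` is the closed subvariety `Z_T` of `𝔸^(a₂ + a₃)` given by the `a₁` bilinear equations
  `∂T/∂x_i (y, z) = 0`;
* `hypS T` is the smooth affine hypersurface `Y_T : T(x, y, z) = 1` of dimension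
  `d = a₁ + a₂ + a₃ - 1`; `O w (d - j) (1 - w) (hypS T)` is `gr^W_w H^{2 j + w - 1}(Y_T)(j)`, that is, the
  graded piece of weight `n + 1` of `H^n(Y_T)`, `n = 2 j + w - 1`, twisted by `j`.
-/

set_option autoImplicit false

open CategoryTheory AlgebraicGeometry MvPolynomial Pool.Agent.Y116.UV Pool.Agent.U554.TU
  Pool.Agent.U554.TW

universe v u

namespace Pool.Agent.Results.MP_d61fbb_ag.CubicHypersurfaces

section

variable {K : Type} [Field K] {𝓜 : Type u} [Category.{v} 𝓜] [Abelian 𝓜] (ω : 𝓜 ⥤ ModuleCat.{0} K)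
  (tate : ℤ → 𝓜) (𝒢 Γ : Subgroup (Aut ω))

/-- `G_{1, ℓ, k}(M) = 𝒢_{1, k}(M)_{ℚ_ℓ}` for a motive `M` which is pure of weight `w`. -/
def SatoTate (w : ℤ) (M : 𝓜) : Prop :=
  {f : ω.obj M ⟶ ω.obj M | ∃ g ∈ Γ, g.hom.app (tate (-w)) = 𝟙 _ ∧ g.hom.app M = f} =
    {f : ω.obj M ⟶ ω.obj M | ∃ g ∈ 𝒢, g.hom.app (tate (-w)) = 𝟙 _ ∧ g.hom.app M = f}

/-- The known properties of the graded pieces `O w b m X` of weight `w` of the Borel-Moore homology
`H_{m + 2 b}(X)(-b)`: for every `w` the properties `IsAbTheory` (long exact sequences, homotopy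
invariance, ...; the functors `gr^W_w` are exact) and

* `point`: `H_{m + 2 b}(Spec k)(-b) = 0` for `m + 2 b ≠ 0`;
* `torsor`: homotopy invariance for affine bundles;
* `jouanolou`: smooth separated schemes of finite type have affine bundles with affine total space
  (Jouanolou, Thomason);
* `pure`: `gr^W_w H_{m + 2 b}(X)(-b)` is a direct factor of `H_{-w + 2 b'}(V)(-b')` for some `b'` and some
  smooth proper `V` (Deligne; the category `Mot_k` is semisimple). -/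
structure IsMotivic {k : Type} [Field k] (O : ℤ → ℤ → ℤ → Sch k → 𝓜) : Prop where
  theory : ∀ w : ℤ, IsAbTheory (O w)
  point : ∀ w b m : ℤ, m + 2 * b ≠ 0 → Limits.IsZero (O w b m (aff k k))
  torsor : ∀ w : ℤ, BundleInvariant (abRel 𝓜) (O w)
  jouanolou : ∀ X : Sch k, FT True X → Smooth X.hom → HasAffineBundle X
  pure : ∀ (w b m : ℤ) (X : Sch k), FT True X → ∃ (V : Sch k) (b' : ℤ), FT True V ∧ Smooth V.hom ∧
    IsProper V.hom ∧ Nonempty (Retract (O w b m X) (O w b' (-w) V))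

/-- The motives which are pure of weight `w`. -/
def IsPure {k : Type} [Field k] (O : ℤ → ℤ → ℤ → Sch k → 𝓜) (w : ℤ) (M : 𝓜) : Prop :=
  ∃ (V : Sch k) (b : ℤ), FT True V ∧ Smooth V.hom ∧ IsProper V.hom ∧
    Nonempty (Retract M (O w b (-w) V))

/-- The closed subvariety `∂T/∂x_i (y, z) = 0`, `1 ≤ i ≤ a₁`, of the affine space with the coordinates
`y`, `z`. -/
noncomputable def zeroS {k : Type} [Field k] {a₁ a₂ a₃ : ℕ} (T : Fin a₁ → Fin a₂ → Fin a₃ → k) :
    Sch k :=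
  aff k (MvPolynomial (Fin a₂ ⊕ Fin a₃) k ⧸
    Ideal.span (Set.range fun i => bil (Fin a₂) (Fin a₃) (T i)))

variable {ω tate 𝒢 Γ}

omit [Abelian 𝓜] in
lemma app_retract {X Y : 𝓜} (r : Retract X Y) (g : Aut ω) :
    g.hom.app X = ω.map r.i ≫ g.hom.app Y ≫ ω.map r.r := by
  rw [← Category.assoc, g.hom.naturality, Category.assoc, ← ω.map_comp, r.retract, ω.map_id,
    Category.comp_id]

omit [Abelian 𝓜] in
/-- The assertion passes to direct factors. -/
lemma inherited (hΓ : Γ ≤ 𝒢) (w : ℤ) : Inherited (abRel 𝓜) (SatoTate ω tate 𝒢 Γ w) := by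
  rintro X Y ⟨r⟩ hY
  apply Set.Subset.antisymm
  · rintro f ⟨g, hg, h1, h2⟩
    exact ⟨g, hΓ hg, h1, h2⟩
  · rintro f ⟨g, hg, h1, rfl⟩
    have h2 : g.hom.app Y ∈ {f : ω.obj Y ⟶ ω.obj Y | ∃ g ∈ Γ,
        g.hom.app (tate (-w)) = 𝟙 _ ∧ g.hom.app Y = f} := by
      rw [hY]
      exact ⟨g, hg, h1, rfl⟩
    obtain ⟨h, hh, h3, h4⟩ := h2
    exact ⟨h, hh, h3, by rw [app_retract r h, app_retract r g, h4]⟩

variable {k : Type} [Field k] {O : ℤ → ℤ → ℤ → Sch k → 𝓜}

/-- The bilinear equations and the hypersurface. -/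
lemma zero_hyp (hO : IsMotivic O) (w : ℤ) {a₁ a₂ a₃ : ℕ} (T : Fin a₁ → Fin a₂ → Fin a₃ → k)
    (j : ℕ) (hj : 1 - w < 2 * j) :
    (abRel 𝓜).Iso (O w (a₁ + a₂ + a₃ - 1 - j) (-w + 1) (hypS T))
      (O w (a₂ + a₃ - j) (-w) (zeroS T)) := by
  have hB := (hO.theory w).isTheory
  let f : Fin a₁ → MvPolynomial (Fin a₂ ⊕ Fin a₃) k := fun i => bil (Fin a₂) (Fin a₃) (T i)
  have e : MvPolynomial (Fin a₂ ⊕ Fin a₃) k ≃ₐ[k] MvPolynomial (Fin (a₂ + a₃)) k :=
    renameEquiv k finSumFinEquiv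
  have h : ∀ m : ℤ, m < 2 * j →
      (abRel 𝓜).Triv (O w (a₂ + a₃ - j) m (aff k (MvPolynomial (Fin a₂ ⊕ Fin a₃) k))) := by
    intro m hm
    refine (abRel 𝓜).iso_triv ((abRel 𝓜).iso_symm (hB.alg e _ m)) ?_
    obtain ⟨u⟩ := (hO.theory w).space k (a₂ + a₃) (-j) m
    rw [show (-j + ((a₂ + a₃ : ℕ) : ℤ) : ℤ) = a₂ + a₃ - j from by push_cast; ring] at u
    exact (hO.point w (-j) m (by omega)).of_iso u.symm
  have h2 := hB.closed _ _ (ft_aff True) (triple_ne f) _ _ (h (-w) (by omega)) (h (-w + 1) (by omega))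
  have h3 := (abRel 𝓜).iso_symm (hB.hyp_bundle T (a₂ + a₃ - j) (-w + 1))
  rw [show (a₂ + a₃ - j + a₁ - 1 : ℤ) = a₁ + a₂ + a₃ - 1 - j from by ring] at h3
  exact (abRel 𝓜).iso_trans h3 h2

end

/-- **The motivic Sato-Tate conjecture, bilinear equations, and the cubic hypersurfaces
`T(x, y, z) = 1`.** Let `k` be a finitely generated field of characteristic `0`, `ℓ` a prime number, `K` an
algebraic closure of `ℚ_ℓ`, `𝓜` the category of motives over `k`, `ω` its fibre functor over `K`, `𝒢`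
and `Γ ≤ 𝒢` the motivic Galois group and the `ℓ`-adic monodromy group, and let `O w b m X` have the
known properties of the motives `gr^W_w H_{m + 2 b}(X)(-b)`. Let `w` be an integer and `s ≥ 1` a number
greater than `(1 - w) / 2`. The following assertions are equivalent:
* Q1 (for `k` and `ℓ`) for all motives which are pure of weight `w`;
* Q1 for all motives `gr^W_w H_{m + 2 b}(X)(-b)`, `X` a separated scheme of finite type over `k`;
* Q1 for the motives `gr^W_w H_{-w + 2 b}(Z_T)(-b)` for all `b` and all closed subvarieties `Z_T` of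
  `𝔸^(a₂ + a₃)` which are given by a finite number of bilinear equations in `a₂ + a₃` variables;
* Q1 for the motives `gr^W_w H^{2 j + w - 1}(Y_T)(j)` for all trilinear forms `T` over `k` and all
  `j ≥ s`.
If `k = ℚ`, the bilinear equations with coefficients `0` and `1` are sufficient in the third assertion,
and the hypersurfaces `∑_{(i, j, k) ∈ S} x_i y_j z_k = 1`, `S` a finite set of triples, in the last
one. -/
theorem result (k : Type) [Field k] [CharZero k] (ℓ : ℕ) [Fact ℓ.Prime] {𝓜 : Type u}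
    [Category.{v} 𝓜] [Abelian 𝓜] (ω : 𝓜 ⥤ ModuleCat.{0} (AlgebraicClosure ℚ_[ℓ])) (tate : ℤ → 𝓜)
    (𝒢 Γ : Subgroup (Aut ω)) (hΓ : Γ ≤ 𝒢) (O : ℤ → ℤ → ℤ → Sch k → 𝓜) (hO : IsMotivic O) (w : ℤ)
    (s : ℕ) (hs : 1 - w < 2 * s) :
    List.TFAE [
      ∀ M : 𝓜, IsPure O w M → SatoTate ω tate 𝒢 Γ w M,
      ∀ (X : Sch k) (b m : ℤ), FT True X → SatoTate ω tate 𝒢 Γ w (O w b m X),
      ∀ (a₁ a₂ a₃ : ℕ) (T : Fin a₁ → Fin a₂ → Fin a₃ → k) (b : ℤ),
        SatoTate ω tate 𝒢 Γ w (O w b (-w) (zeroS T)),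
      ∀ (a₁ a₂ a₃ : ℕ) (T : Fin a₁ → Fin a₂ → Fin a₃ → k) (j : ℕ), s ≤ j →
        SatoTate ω tate 𝒢 Γ w (O w (a₁ + a₂ + a₃ - 1 - j) (-w + 1) (hypS T))] ∧
    (Nonempty (ℚ ≃+* k) →
      List.TFAE [
        ∀ M : 𝓜, IsPure O w M → SatoTate ω tate 𝒢 Γ w M,
        ∀ (a₁ a₂ a₃ : ℕ) (T : Fin a₁ → Fin a₂ → Fin a₃ → k),
          (∀ i j l, T i j l = 0 ∨ T i j l = 1) → ∀ b : ℤ,
            SatoTate ω tate 𝒢 Γ w (O w b (-w) (zeroS T)),
        ∀ (a₁ a₂ a₃ : ℕ) (S : Finset (Fin a₁ × Fin a₂ × Fin a₃)) (j : ℕ), s ≤ j →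
          SatoTate ω tate 𝒢 Γ w (O w (a₁ + a₂ + a₃ - 1 - j) (-w + 1) (tripS k S))]) := by
  have hT := (hO.theory w).isTheory
  have hI := inherited (ω := ω) (tate := tate) hΓ w
  have hp : (∀ M : 𝓜, IsPure O w M → SatoTate ω tate 𝒢 Γ w M) → ∀ (X : Sch k) (b m : ℤ),
      FT True X → SatoTate ω tate 𝒢 Γ w (O w b m X) := by
    intro h X b m hX
    obtain ⟨V, b', h1, h2, h3, h4⟩ := hO.pure w b m X hX
    exact h _ ⟨V, b', h1, h2, h3, h4⟩
  have hy : ∀ (S : Set k), 0 ∈ S → 1 ∈ S → Presents S →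
      (∀ (a₁ a₂ a₃ : ℕ) (T : Fin a₁ → Fin a₂ → Fin a₃ → k), (∀ i j l, T i j l ∈ S) →
        ∀ j : ℕ, s ≤ j →
          SatoTate ω tate 𝒢 Γ w (O w (a₁ + a₂ + a₃ - 1 - j) (-w + 1) (hypS T))) →
      ∀ M : 𝓜, IsPure O w M → SatoTate ω tate 𝒢 Γ w M := by
    rintro S h0 h1 hS h M ⟨V, b, h2, h3, -, h4⟩
    refine hI _ _ h4 ?_
    refine bundle_of_affine (hO.torsor w) hI (-w) ?_ V h2 (hO.jouanolou V h2 h3) b
    intro A _ _ _ b
    exact affine_of_hyp hT hI h0 h1 hS s (-w)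
      (fun a₁ a₂ a₃ T hT' j hj => h a₁ a₂ a₃ T hT' j hj) A b
  have hz : ∀ (S : Set k), (∀ (a₁ a₂ a₃ : ℕ) (T : Fin a₁ → Fin a₂ → Fin a₃ → k),
      (∀ i j l, T i j l ∈ S) → ∀ b : ℤ, SatoTate ω tate 𝒢 Γ w (O w b (-w) (zeroS T))) →
      (∀ (a₁ a₂ a₃ : ℕ) (T : Fin a₁ → Fin a₂ → Fin a₃ → k), (∀ i j l, T i j l ∈ S) →
        ∀ j : ℕ, s ≤ j →
          SatoTate ω tate 𝒢 Γ w (O w (a₁ + a₂ + a₃ - 1 - j) (-w + 1) (hypS T))) := by
    intro S h a₁ a₂ a₃ T hT' j hj
    exact (hI.iff (zero_hyp hO w T j (by omega))).mpr (h a₁ a₂ a₃ T hT' _)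
  refine ⟨?_, ?_⟩
  · tfae_have 1 → 2 := hp
    tfae_have 2 → 3 := fun h a₁ a₂ a₃ T b => h _ _ _ (ft_aff True)
    tfae_have 3 → 4 := fun h a₁ a₂ a₃ T j hj =>
      hz Set.univ (fun a₁ a₂ a₃ T _ b => h a₁ a₂ a₃ T b) a₁ a₂ a₃ T (fun _ _ _ => trivial) j hj
    tfae_have 4 → 1 := fun h =>
      hy Set.univ trivial trivial presents_univ fun a₁ a₂ a₃ T _ j hj => h a₁ a₂ a₃ T j hj
    tfae_finish
  · rintro ⟨e⟩
    have hp' : Presents ({0, 1} : Set k) := Pool.Agent.Q193.LT.presents_frac fun x => by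
      refine ⟨(e.symm x).den, (e.symm x).num, ?_, ?_⟩
      · exact IsUnit.mk0 _ (by exact_mod_cast (e.symm x).den_ne_zero)
      · have h1 : (((e.symm x).num : ℤ) : ℚ) = ((e.symm x).den : ℤ) * e.symm x := by
          push_cast
          rw [mul_comm]
          exact (Rat.mul_den_eq_num (e.symm x)).symm
        have h2 := congrArg e h1
        rwa [map_mul, e.apply_symm_apply, map_intCast, map_intCast] at h2
    tfae_have 1 → 2 := fun h a₁ a₂ a₃ T _ b => hp h _ _ _ (ft_aff True)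
    tfae_have 2 → 3 := by
      intro h a₁ a₂ a₃ S j hj
      obtain ⟨T, hT', hS⟩ := trip_hyp (R := k) S
      rw [← hS]
      exact hz {0, 1} (fun a₁ a₂ a₃ T hT' b => h a₁ a₂ a₃ T hT' b) a₁ a₂ a₃ T hT' j hj
    tfae_have 3 → 1 := by
      intro h
      refine hy {0, 1} (Or.inl rfl) (Or.inr rfl) hp' (fun a₁ a₂ a₃ T hT' j hj => ?_)
      obtain ⟨S, hS⟩ := hyp_zero_one T hT'
      rw [hS]
      exact h a₁ a₂ a₃ S j hj
    tfae_finish

end Pool.Agent.Results.MP_d61fbb_ag.CubicHypersurfaces
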