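import Pool.Agent.H320R.FM.Proof

/-!
# The motivic Sato-Tate conjecture is decided by the fourth moments and the centre

For abelian varieties: by the Tate classes in codimension two.

Let `M` be the direct sum of motives `M_i`, pure of one weight `w ≠ 0`, over a finitely generated field `k`
of characteristic zero with absolute Galois group `Γ`. Let `ρ i` be the representation of `Γ` on the `ℓ`-adic
realisation `V i = ℚ_ℓ ^ (n i)` of `M_i`, `ω i` its polarization and `χ` the multiplier
(`Polarized`). Let `𝔤` be the Lie algebra of the motivic Galois group of `M`, with coefficients extended to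
`ℚ_ℓ`, acting on the sum of the `V i`. It is reductive, it is determined by the tensors which it kills,
these are Tate tensors (see `IsMotivic`), and it contains the scalars, since `w ≠ 0`.

The question compares the groups `G_{1,ℓ}` and `𝒢_1`, the elements with multiplier one in the `ℓ`-adic
monodromy group `G_ℓ` and in the motivic Galois group. If `G_ℓ` is reductive, its Lie algebra consists of the
operators which kill all Tate tensors. So

* `lieGalois` (the operators that kill all Tate tensors, with multiplier zero) is the Lie algebra of
  `G_{1,ℓ}`,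
* `lieMotivic` (the elements of `𝔤` with multiplier zero) is the Lie algebra of `𝒢_1` over `ℚ_ℓ`,
* `SatoTate`: they are equal. This is the equality of the question for the identity components, that is,
  after finite extensions of `k`.

**Theorem.** Let the representation be semisimple (`Semisimple`), and let some element of `Γ` act purely of
weight `w ≠ 0` (like a Frobenius element). (1) `SatoTate` holds if and only if

* `FourthMoments`: the linear maps `End (V i) → End (V j)` which commute with the conjugations by a
  subgroup of finite index of `Γ` commute with the Lie algebra of `𝒢_1`; these maps are the invariants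
  in the tensors of degree four `V i ⊗ V i* ⊗ V j ⊗ V j*`, whose numbers are the fourth moments of the two
  groups; and
* `CentreST`: the centre of the Lie algebra of `𝒢_1` is contained in the Lie algebra of `G_{1,ℓ}`.

So if `𝒢_1` is semisimple, then the fourth moments alone decide. (2) `SatoTate` is equivalent to the
Mumford-Tate form: the Tate tensors are the tensors killed by `𝔤`. (3) Let the `M_i` be `H_1` of abelian
varieties `A_i`; then the following are equivalent, if `CentreST` holds (as is known for abelian
varieties: Vasiu, Ullmo-Yafaev): `SatoTate`; all Tate classes of codimension two on the products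
`A_i ^ 2 × A_j ^ 2` are Hodge classes; all Tate classes on all products of powers of the `A_i` are Hodge
classes. If moreover all Hodge classes on these products are algebraic, then `SatoTate` is equivalent
to the Tate conjecture in codimension two for the `A_i ^ 2 × A_j ^ 2`, and it implies the Tate conjecture
for all products of powers.

The Mumford-Tate form of this theorem is `MP_de8692_ag.FourthPowerDecides` (helper980), whose library
`Pool/Agent/U980` is used here. New are the Lie algebras of the groups of elements with multiplier one.
-/

set_option autoImplicit false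

namespace Pool.Agent.Results.MP_d61fbb_ag.FourthMoments

open Pool.Agent.H320R.FM

variable {ι : Type} [Fintype ι] [DecidableEq ι] {n : ι → ℕ} {ℓ : ℕ} [Fact ℓ.Prime]
  {Γ : Type} [Group Γ] [TopologicalSpace Γ] [IsTopologicalGroup Γ] [CompactSpace Γ]

theorem result (ρ : Reps Γ n ℓ) (hρ : Conts ρ) (𝔤 : EndSpace n ℓ) (h𝔤 : Motivic ρ 𝔤)
    (χ : Γ →* ℚ_[ℓ]) (ω : Forms n ℓ) (hω : Polarized ρ χ ω) (hsim : Similitudes 𝔤 ω)
    (hss : Semisimple ρ) (hw : PureOfWeight ρ) :
    lieGalois ρ ω ⊆ lieMotivic 𝔤 ω ∧
    (SatoTate ρ 𝔤 ω ↔ FourthMoments ρ 𝔤 ω ∧ CentreST ρ 𝔤 ω) ∧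
    (SatoTate ρ 𝔤 ω ↔ MumfordTate ρ 𝔤) ∧
    (CentreFree 𝔤 ω → (SatoTate ρ 𝔤 ω ↔ FourthMoments ρ 𝔤 ω)) ∧
    (CentreST ρ 𝔤 ω →
      (SatoTate ρ 𝔤 ω ↔ HodgeInCodimTwo ρ 𝔤 ω χ) ∧
      (SatoTate ρ 𝔤 ω ↔ HodgeOnProducts ρ 𝔤 ω χ) ∧
      ∀ Alg : Classes n ℓ, HodgeConj 𝔤 ω Alg →
        (SatoTate ρ 𝔤 ω ↔ TateInCodimTwo ρ χ Alg) ∧
        (SatoTate ρ 𝔤 ω ↔ TateOnProducts ρ χ Alg)) :=
  main ρ hρ 𝔤 h𝔤 χ ω hω hsim hss hw

end Pool.Agent.Results.MP_d61fbb_ag.FourthMoments
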