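import Pool.Agent.U483.KP.MtMod

/-!
# The motivic Sato-Tate conjecture and the Grothendieck ring of varieties

`𝓜` is the semisimple tensor category of the motives over `k` for absolute Hodge cycles (or of André), for a finitely
generated field `k ⊆ ℂ`, and `H.h i w X = gr^W_w h^i_c(X)` for all separated schemes `X` of finite type over `k`
(Deligne, Jannsen); `R` is the `ℓ`-adic realization with the action of the Galois group, `T` the Tate motives
with the cyclotomic character. The structures `CompactCoh`, `IsMultiplicative`, `Realization` and `Twists` list the
known properties which are used. `T.MotivicTate M` says that for all motives in the tensor category generated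
by `M` and the Tate motives the `ℓ`-adic realization is semisimple and all Tate classes are combinations of
classes of morphisms of motives; this is the equality of the `ℓ`-adic monodromy group and the motivic Galois group
of `M`, and it is equivalent to the motivic Sato-Tate conjecture for `M` (Banaszak, Kedlaya).

* For smooth projective `X` and `X'` and every single degree `i`: if `X` and `X'` have the same class in the
  Grothendieck group `K_0(Var_k)` of varieties, or if the difference of the classes is in the subgroup
  generated by the classes of the schemes `Y` (open, singular) for which the pieces `gr^W_i h^n_c(Y)` are Tate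
  motives (for instance cellular schemes), then the conjecture holds for `h^i(X)` if and only if it holds for
  `h^i(X')`, and the two motives generate the same tensor category.
* Let `𝒜` be a class of motives which is closed under direct factors, direct sums and tensor products, which contains
  the Tate motives and whose members have semisimple realizations and only motivic Tate classes. If
  the class of `X` is in the subgroup generated by the classes of the schemes `Y` with all `gr^W_i h^n_c(Y)` in
  `𝒜`, then the conjecture holds for `h^i(X)`.
-/

set_option autoImplicit false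

open CategoryTheory CategoryTheory.Limits AlgebraicGeometry Pool.Agent.Y116.UV Pool.Agent.U282.ZL
  Pool.Agent.U483.KM Pool.Agent.U483.GU Pool.Agent.U483.KP

namespace Pool.Agent.Results.MP_d61fbb_ag.GrothendieckRing

universe w x

theorem result (k : Type) [Field k] (𝓜 : Type w) [Category.{x} 𝓜] [Abelian 𝓜] [Linear ℚ 𝓜]
    [MonoidalCategory 𝓜] (H : CompactCoh.{w, x} k 𝓜)
    (G K : Type) [Group G] [Field K] (R : Realization.{w, x} 𝓜 G K) (T : Twists R) :
    -- a single degree, in terms of the class in `K_0(Var_k)`, modulo Tate motives
    (∀ X X' : Var k, SmoothProjective X.1 → SmoothProjective X'.1 → ∀ i : ℤ,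
      cls X - cls X' ∈
        AddSubgroup.closure {c | ∃ Y : Var k, (∀ n : ℤ, TateType T (H.h n i Y.1)) ∧ c = cls Y} →
      (∀ A, T.Generated (H.h i i X.1) A ↔ T.Generated (H.h i i X'.1) A) ∧
      (T.MotivicTate (H.h i i X.1) ↔ T.MotivicTate (H.h i i X'.1))) ∧
    -- with the same class the motives are isomorphic
    (∀ X X' : Var k, SmoothProjective X.1 → SmoothProjective X'.1 → cls X = cls X' → ∀ i : ℤ,
      Nonempty (H.h i i X.1 ≅ H.h i i X'.1)) ∧
    -- varieties whose classes are generated by schemes with known pieces of weight `i`
    (∀ 𝒜 : 𝓜 → Prop, IsTensorThick 𝒜 → (∀ m, 𝒜 (T.tw m)) → (∀ A, 𝒜 A → T.Good A) →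
      ∀ X : Var k, SmoothProjective X.1 → ∀ i : ℤ,
        cls X ∈ AddSubgroup.closure {c | ∃ Y : Var k, (∀ n : ℤ, 𝒜 (H.h n i Y.1)) ∧ c = cls Y} →
        T.MotivicTate (H.h i i X.1)) := by
  refine ⟨fun X X' hX hX' i h => ?_, fun X X' hX hX' h i => iso_of_cls H hX hX' h i,
    fun 𝒜 h𝒜 ht hA X hX i h => ?_⟩
  · have h1 := generated_mod H T hX hX' i h
    exact ⟨h1, fun h2 A hA => h2 A ((h1 A).2 hA), fun h2 A hA => h2 A ((h1 A).1 hA)⟩
  · have h1 := piece_of_mem H h𝒜.toIsThick hX i h
    exact fun A hA' => hA A (hA' 𝒜 h𝒜 h1 ht)

end Pool.Agent.Results.MP_d61fbb_ag.GrothendieckRing
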