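import Pool.Agent.U175.LP.Q5

/-!
# The motivic Sato-Tate conjecture from residual representations modulo one prime number

Let `k` be a finitely generated field of characteristic zero, `M = ⊕ M_i ⊕ A` a motive over `k` (in the
category of André, or for absolute Hodge cycles), where `A` is an Artin motive and the `M_i` are
motives of rank `N_i` and weight `w_i` with a form `J_i` (for example a polarization), alternating or
symmetric (in the symmetric case twisted to weight zero, of rank `5`, `7` or at least `8`). Let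
`𝒢 ⊂ ∏ GL(M_i) × GL(A)` be the motivic Galois group of `M`, given by rational equations `Pol`, and
suppose that it is as big as possible up to finite groups: the group acts on the `M_i` by similitudes
and contains all families of isometries of determinant one. The group of components and the action
on `A` are arbitrary. If all weights `w_i` are equal to `w` (and `A = 0` or `w = 0`) then `M` is pure, and
the kernel `𝒢_1` of the multiplier, which is studied in the problem, is the group of the isometries in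
`𝒢`; also for different weights we call this group `𝒢_1`.

`Γ` is the Galois group of `k` (or the fundamental group of a model `U`), and `s : G_K → Γ` the
homomorphism given by a closed point of `U` with residue field `K`, a number field; so `s` describes the
fibre `M_s` of the motive at the closed point (if `k` is a number field then `K = k` and `s` is the
identity). The Frobenius polynomials of the fibre do not depend on `ℓ`. In the coordinates of `M_i` the
lattices `ℤ_ℓ ^ N_i` are stable under `Γ` (choose a lattice in the Betti realization which is stable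
in the adelic realization, and its basis).

The conjecture of Banaszak and Kedlaya (Q1) is `MotivicSatoTate`: the isometries in the Zariski closure of
the image of the Galois group are the elements of `𝒢_1`. By their theorem it is equivalent to the
motivic Tate conjecture `MotivicTate`; here both are proved.

**Theorem.** Let `p ≥ 5` be ONE prime number, prime to `N_i - 1` for the symmetric forms of odd rank and to
`(N_i - 2) (N_i - 4)` for the symmetric forms of even rank. Consider the FINITE groups, the images of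
`G_K` in the automorphisms of the spaces `M_i / p` over the field with `p` elements, and suppose that

* each `M_i / p` is primitive: a subspace `W` such that for all `g` the subspace `g W` is equal to `W`
  or orthogonal to `W` is zero or the whole space;
* for each `i` some `g` acts on `M_i / p` by `x ↦ x + c ⟨v, x⟩ v` with `c, v ≠ 0` (a transvection for
  alternating forms, a reflection for symmetric ones), and trivially on `M_j / p` for all `j ≠ i`;
* for each `i` with a symmetric form some `g` acts on `M_i / p` as a matrix `u ≠ 1` with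
  `(u - 1) ^ ((p - 1) / 2) = 0` (if `p > 2 N_i` this means that the order of the group is divisible
  by `p`);
* `G_K` meets every component of `𝒢` (if `K = k` this holds for all motives, since the Artin motives
  in the category generated by `M` correspond to the representations of the Galois group).

Then (0) the motivic Tate and Sato-Tate conjectures hold for `M_s` and for `M` at `p`;

(1) they hold for `M_s` and for `M` at all prime numbers outside a set of natural density zero;

(2) for EVERY prime number `ℓ` each of them holds for `M_s` at `ℓ` if and only if the `ℓ`-adic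
realizations of all `M_i` are absolutely irreducible representations of `G_K`; and then both hold for `M`
at `ℓ`.

So in place of the conjecture at one prime number (as in `MP_bbcdf5_ag.FromOnePrime`) only finite groups
modulo one prime number are used. In the second condition `g` can be a generator of the inertia group of a
place at which only the `i`-th motive has bad reduction, given by an ordinary double point.

Proof. For one alternating form the orbit of the vector of the transvection is connected by primitivity,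
and the logarithms of the transvections generate the symplectic Lie algebra modulo `p`; by lifting one
obtains the Lie algebra of the image at `p` (`sp_of_residual`). For one symmetric form the Lie algebra
is found with the reflections and the logarithm of `u` (`so_of_residual`, from
`MP_6369ef_ag.ResidualReflections`). Independence (`pair_zero`, new): if the joint Lie algebra of two
motives is not the product, there is a nonzero equivariant map `Θ` from the matrices on `M_j` to the
skew matrices on `M_i`; scaled to be integral and not zero modulo `p`, its values modulo `p` commute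
with `x ↦ x + c ⟨v, x⟩ v`, so they kill `v` and by equivariance the orbit of `v`, which spans the space
by primitivity; contradiction. This gives the joint Lie algebra, and with the components the motivic
Tate conjecture at `p` (`tate_of_full`). The other prime numbers follow from the library
`Pool.Agent.U273.AI` (helper273).
-/

set_option autoImplicit false

namespace Pool.Agent.Results.MP_d61fbb_ag.ResidualFamilies

open Matrix Filter Topology NumberField IsDedekindDomain

noncomputable section

/-- the absolute Galois group of `K`, with its profinite (Krull) topology -/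
abbrev AbsoluteGaloisGroup (K : Type) [Field K] : Type := Gal(AlgebraicClosure K/K)

/-- `σ` is an (arithmetic) Frobenius element at the prime `v` of the number field `K`: for some prime
`Q` of the algebraic closure above `v` it acts on the residue field as `x ↦ x ^ N(v)` -/
def IsFrobenius {K : Type} [Field K] [NumberField K] (v : HeightOneSpectrum (𝓞 K))
    (σ : AbsoluteGaloisGroup K) : Prop :=
  ∃ Q : Ideal (𝓞 (AlgebraicClosure K)), Q.IsMaximal ∧
    Q.comap (algebraMap (𝓞 K) (𝓞 (AlgebraicClosure K))) = v.asIdeal ∧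
    ∀ x : 𝓞 (AlgebraicClosure K), σ • x - x ^ Ideal.absNorm v.asIdeal ∈ Q

/-- An `ℓ`-adic integral representation as a representation over `ℚ_ℓ`. -/
def rational {ℓ : ℕ} [Fact ℓ.Prime] {n : ℕ} {G : Type} [Group G]
    (β : G →* Matrix (Fin n) (Fin n) ℤ_[ℓ]) : G →* Matrix (Fin n) (Fin n) ℚ_[ℓ] :=
  ((algebraMap ℤ_[ℓ] ℚ_[ℓ]).mapMatrix : Matrix (Fin n) (Fin n) ℤ_[ℓ] →+*
    Matrix (Fin n) (Fin n) ℚ_[ℓ]).toMonoidHom.comp β

section groups

variable {ι : Type} {N : ι → ℕ} {m : ℕ}

/-- polynomials over `F` in the entries of a family of matrices `x i` of size `N i` and of a matrix `a`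
of size `m` -/
abbrev Poly (F : Type) [Field F] {ι : Type} (N : ι → ℕ) (m : ℕ) : Type :=
  MvPolynomial ((Σ i, Fin (N i) × Fin (N i)) ⊕ (Fin m × Fin m)) F

/-- the coordinates of the point `(x, a)` -/
def coordinates {F : Type} (x : ∀ i, Matrix (Fin (N i)) (Fin (N i)) F)
    (a : Matrix (Fin m) (Fin m) F) : (Σ i, Fin (N i) × Fin (N i)) ⊕ (Fin m × Fin m) → F :=
  Sum.elim (fun y => x y.1 y.2.1 y.2.2) fun y => a y.1 y.2

/-- the point `(x, a)` satisfies the equations `Pol` -/
def Satisfies {F : Type} [Field F] [Algebra ℚ F] (Pol : Set (Poly ℚ N m))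
    (x : ∀ i, Matrix (Fin (N i)) (Fin (N i)) F) (a : Matrix (Fin m) (Fin m) F) : Prop :=
  ∀ f ∈ Pol, MvPolynomial.aeval (coordinates x a) f = 0

/-- the point `(x, a)` belongs to the Zariski closure of the image of `β` and `α` over the algebraic
closure of `ℚ_ℓ` -/
def InZariskiClosure {ℓ : ℕ} [Fact ℓ.Prime] {Γ : Type} [Group Γ]
    (β : ∀ i, Γ →* Matrix (Fin (N i)) (Fin (N i)) ℤ_[ℓ]) (α : Γ →* Matrix (Fin m) (Fin m) ℚ)
    (x : ∀ i, Matrix (Fin (N i)) (Fin (N i)) (AlgebraicClosure ℚ_[ℓ]))
    (a : Matrix (Fin m) (Fin m) (AlgebraicClosure ℚ_[ℓ])) : Prop :=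
  ∀ f : Poly (AlgebraicClosure ℚ_[ℓ]) N m,
    (∀ σ, MvPolynomial.eval (coordinates
      (fun i => (rational (β i) σ).map (algebraMap ℚ_[ℓ] (AlgebraicClosure ℚ_[ℓ])))
      ((α σ).map (algebraMap ℚ (AlgebraicClosure ℚ_[ℓ])))) f = 0) →
    MvPolynomial.eval (coordinates x a) f = 0

/-- **The motivic Tate conjecture**: the Zariski closure of the image of the Galois group is the motivic
Galois group, which is given by the equations `Pol`. -/
def MotivicTate {ℓ : ℕ} [Fact ℓ.Prime] {Γ : Type} [Group Γ] (Pol : Set (Poly ℚ N m))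
    (β : ∀ i, Γ →* Matrix (Fin (N i)) (Fin (N i)) ℤ_[ℓ]) (α : Γ →* Matrix (Fin m) (Fin m) ℚ) :
    Prop :=
  ∀ (x : ∀ i, Matrix (Fin (N i)) (Fin (N i)) (AlgebraicClosure ℚ_[ℓ]))
    (a : Matrix (Fin m) (Fin m) (AlgebraicClosure ℚ_[ℓ])), (∀ i, (x i).det ≠ 0) → a.det ≠ 0 →
    (InZariskiClosure β α x a ↔ Satisfies Pol x a)

/-- the form `J`, base change to `F` -/
def baseChange {n : ℕ} (F : Type) [Field F] [Algebra ℚ F] (J : Matrix (Fin n) (Fin n) ℚ) :
    Matrix (Fin n) (Fin n) F :=
  J.map (algebraMap ℚ F)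

/-- the matrices `x i` are isometries of the forms `J i` -/
def AreIsometries {F : Type} [Field F] [Algebra ℚ F] (J : ∀ i, Matrix (Fin (N i)) (Fin (N i)) ℚ)
    (x : ∀ i, Matrix (Fin (N i)) (Fin (N i)) F) : Prop :=
  ∀ i, (x i)ᵀ * baseChange F (J i) * x i = baseChange F (J i)

/-- **The motivic Sato-Tate conjecture**: the isometries in the Zariski closure of the image of the Galois
group are the isometries in the motivic Galois group, which is given by the equations `Pol`. -/
def MotivicSatoTate {ℓ : ℕ} [Fact ℓ.Prime] {Γ : Type} [Group Γ]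
    (J : ∀ i, Matrix (Fin (N i)) (Fin (N i)) ℚ) (Pol : Set (Poly ℚ N m))
    (β : ∀ i, Γ →* Matrix (Fin (N i)) (Fin (N i)) ℤ_[ℓ]) (α : Γ →* Matrix (Fin m) (Fin m) ℚ) :
    Prop :=
  ∀ (x : ∀ i, Matrix (Fin (N i)) (Fin (N i)) (AlgebraicClosure ℚ_[ℓ]))
    (a : Matrix (Fin m) (Fin m) (AlgebraicClosure ℚ_[ℓ])), a.det ≠ 0 → AreIsometries J x →
    (InZariskiClosure β α x a ↔ Satisfies Pol x a)

/-- `J` is nondegenerate, and alternating of size at least one, or symmetric of size `5`, `7` or at least
`8` -/
def IsAdmissible {n : ℕ} (J : Matrix (Fin n) (Fin n) ℚ) : Prop :=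
  J.det ≠ 0 ∧ ((Jᵀ = -J ∧ 0 < n) ∨ (Jᵀ = J ∧ Odd n ∧ 5 ≤ n) ∨ (Jᵀ = J ∧ Even n ∧ 8 ≤ n))

/-- the condition on the prime number `p` -/
def IsSuitable {n : ℕ} (J : Matrix (Fin n) (Fin n) ℚ) (p : ℕ) : Prop :=
  (Jᵀ = J → Odd n → ¬ p ∣ n - 1) ∧ (Jᵀ = J → Even n → ¬ p ∣ (n - 2) * (n - 4))

end groups

variable {ι : Type} {N : ι → ℕ} {m : ℕ}

/-- The motives `M i` of rank `N i` and weight `w i` with the forms `J i`, the Artin motive `A` of rank `m`
with the Galois action `α`, the motivic Galois group given by the equations `Pol`, and the Galois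
actions `β i ℓ` on the `ℓ`-adic realizations of the `M i`; `κ ℓ` is the inverse of the cyclotomic
character. The Frobenius polynomials `P i v` are those of the fibre at the closed point `s`. -/
structure IsSystem {K : Type} [Field K] [NumberField K] {Γ : Type} [Group Γ] [TopologicalSpace Γ]
    (s : AbsoluteGaloisGroup K →* Γ) (S : Set (HeightOneSpectrum (𝓞 K))) (w : ι → ℕ)
    (P : ι → HeightOneSpectrum (𝓞 K) → Polynomial ℚ)
    (J : ∀ i, Matrix (Fin (N i)) (Fin (N i)) ℚ) (α : Γ →* Matrix (Fin m) (Fin m) ℚ)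
    (κ : ∀ (ℓ : ℕ) [Fact ℓ.Prime], Γ →* ℚ_[ℓ])
    (β : ∀ (i : ι) (ℓ : ℕ) [Fact ℓ.Prime], Γ →* Matrix (Fin (N i)) (Fin (N i)) ℤ_[ℓ])
    (Pol : Set (Poly ℚ N m)) : Prop where
  /-- the set of exceptional places is finite -/
  finite : S.Finite
  /-- the homomorphism given by the closed point is continuous -/
  point : Continuous s
  /-- the forms are nondegenerate and large enough -/
  form : ∀ i, IsAdmissible (J i)
  /-- the motives with symmetric forms are twisted to weight zero -/
  weight : ∀ i, (J i)ᵀ = J i → w i = 0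
  /-- `A` is an Artin motive -/
  artin : ∃ U : Subgroup Γ, IsOpen (U : Set Γ) ∧ ∀ σ ∈ U, α σ = 1
  /-- `κ` is the inverse of the cyclotomic character -/
  cyclotomic : ∀ (ℓ : ℕ) [Fact ℓ.Prime], Continuous (κ ℓ) ∧
    ∀ v ∉ S, (ℓ : 𝓞 K) ∉ v.asIdeal → ∀ σ : AbsoluteGaloisGroup K,
      IsFrobenius v σ → κ ℓ (s σ⁻¹) = (Ideal.absNorm v.asIdeal : ℚ_[ℓ])
  /-- the Galois actions are continuous -/
  continuous : ∀ (i : ι) (ℓ : ℕ) [Fact ℓ.Prime], Continuous (β i ℓ)
  /-- the Galois group acts by similitudes of the forms -/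
  similitude : ∀ (i : ι) (ℓ : ℕ) [Fact ℓ.Prime] (g : Γ),
    (rational (β i ℓ) g)ᵀ * baseChange ℚ_[ℓ] (J i) * rational (β i ℓ) g =
      κ ℓ g ^ w i • baseChange ℚ_[ℓ] (J i)
  /-- the characteristic polynomials of the geometric Frobenius elements do not depend on `ℓ` -/
  frobenius : ∀ (i : ι) (ℓ : ℕ) [Fact ℓ.Prime], ∀ v ∉ S, (ℓ : 𝓞 K) ∉ v.asIdeal →
    ∀ σ : AbsoluteGaloisGroup K, IsFrobenius v σ →
      (rational (β i ℓ) (s σ⁻¹)).charpoly = (P i v).map (algebraMap ℚ ℚ_[ℓ])
  /-- the motivic Galois group acts by similitudes of the forms -/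
  motivic_le : ∀ (x : ∀ i, Matrix (Fin (N i)) (Fin (N i)) ℂ) (a : Matrix (Fin m) (Fin m) ℂ),
    (∀ i, (x i).det ≠ 0) → a.det ≠ 0 → Satisfies Pol x a →
      ∃ t : ℂ, t ≠ 0 ∧ ∀ i, (x i)ᵀ * baseChange ℂ (J i) * x i = t ^ w i • baseChange ℂ (J i)
  /-- the motivic Galois group contains all families of isometries of determinant one -/
  motivic_ge : ∀ x : ∀ i, Matrix (Fin (N i)) (Fin (N i)) ℂ, AreIsometries J x →
    (∀ i, (x i).det = 1) → Satisfies Pol x 1
  /-- the Galois group acts through the motivic Galois group -/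
  galois : ∀ (ℓ : ℕ) [Fact ℓ.Prime] (σ : Γ),
    Satisfies Pol (fun i => rational (β i ℓ) σ) ((α σ).map (algebraMap ℚ ℚ_[ℓ]))

/-- the representation `β` is absolutely irreducible: there is no proper nonzero stable subspace over the
algebraic closure of `ℚ_ℓ` -/
def IsAbsolutelyIrreducible {ℓ : ℕ} [Fact ℓ.Prime] {n : ℕ} {G : Type} [Group G]
    (β : G →* Matrix (Fin n) (Fin n) ℤ_[ℓ]) : Prop :=
  ∀ W : Submodule (AlgebraicClosure ℚ_[ℓ]) (Fin n → AlgebraicClosure ℚ_[ℓ]),
    (∀ g, ∀ w ∈ W, (rational β g).map (algebraMap ℚ_[ℓ] (AlgebraicClosure ℚ_[ℓ])) *ᵥ w ∈ W) →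
      W = ⊥ ∨ W = ⊤

/-- the set `A` of prime numbers has natural density zero -/
def HasDensityZero (A : Set ℕ) : Prop :=
  Tendsto (fun n : ℕ => (Nat.card {ℓ : ℕ // ℓ ≤ n ∧ ℓ ∈ A} : ℝ) / (Nat.primeCounting n : ℝ))
    atTop (𝓝 0)

section residual

variable {p : ℕ} [Fact p.Prime] {n : ℕ} {G : Type} [Group G]

/-- The reduction modulo `p` of an integral `p`-adic matrix. -/
def reduction (g : Matrix (Fin n) (Fin n) ℤ_[p]) : Matrix (Fin n) (Fin n) (ZMod p) :=
  g.map PadicInt.toZMod

/-- The product of two vectors modulo `p` for the form with the matrix `B`. -/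
def product (B : Matrix (Fin n) (Fin n) ℤ_[p]) (x y : Fin n → ZMod p) : ZMod p :=
  x ⬝ᵥ reduction B *ᵥ y

/-- `B` is the matrix of a nonzero multiple of the form `J`, integral and not zero modulo `p`. -/
def IsFormOn (J : Matrix (Fin n) (Fin n) ℚ) (B : Matrix (Fin n) (Fin n) ℤ_[p]) : Prop :=
  (∃ c : ℚ_[p], c ≠ 0 ∧ B.map (algebraMap ℤ_[p] ℚ_[p]) = c • baseChange ℚ_[p] J) ∧
    reduction B ≠ 0

/-- The residual representation is primitive: the only subspaces `W` such that for all `g` the
subspace `g W` is equal to `W` or orthogonal to `W` are zero and the whole space. -/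
def IsPrimitive (B : Matrix (Fin n) (Fin n) ℤ_[p]) (β : G →* Matrix (Fin n) (Fin n) ℤ_[p]) : Prop :=
  ∀ W : Submodule (ZMod p) (Fin n → ZMod p),
    (∀ g, W.map (reduction (β g)).mulVecLin = W ∨
      ∀ x ∈ W, ∀ y ∈ W, product B (reduction (β g) *ᵥ x) y = 0) → W = ⊥ ∨ W = ⊤

/-- `g` acts modulo `p` by `x ↦ x + c ⟨v, x⟩ v` with `c` and `v` not zero (a transvection or a
reflection). -/
def Transvects (B : Matrix (Fin n) (Fin n) ℤ_[p]) (β : G →* Matrix (Fin n) (Fin n) ℤ_[p]) (g : G) :
    Prop :=
  ∃ (v : Fin n → ZMod p) (c : ZMod p), c ≠ 0 ∧ v ≠ 0 ∧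
    ∀ x, reduction (β g) *ᵥ x = x + (c * product B v x) • v

/-- **The hypothesis on the residual representations.** -/
structure ResidualHypothesis (J : ∀ i, Matrix (Fin (N i)) (Fin (N i)) ℚ)
    (B : ∀ i, Matrix (Fin (N i)) (Fin (N i)) ℤ_[p])
    (β : ∀ i, G →* Matrix (Fin (N i)) (Fin (N i)) ℤ_[p]) : Prop where
  /-- `B i` is a multiple of the form `J i` -/
  form : ∀ i, IsFormOn (J i) (B i)
  /-- the residual representations are primitive -/
  primitive : ∀ i, IsPrimitive (B i) (β i)
  /-- for each `i` there is a transvection or a reflection on `M i / p`, trivial on the others -/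
  transvection : ∀ i, ∃ g : G, Transvects (B i) (β i) g ∧ ∀ j, j ≠ i → reduction (β j g) = 1
  /-- for symmetric forms there is a unipotent element of small order -/
  unipotent : ∀ i, (J i)ᵀ = J i → ∃ g : G, reduction (β i g) ≠ 1 ∧
    (reduction (β i g) - 1) ^ ((p - 1) / 2) = 0

/-- The group `G` meets every component of the motivic Galois group: for every point `(x, a)` some
`σ` in `G` acts on `A` as `a`, and for the symmetric forms with the sign `det (x i)`. -/
def MeetsEveryComponent (J : ∀ i, Matrix (Fin (N i)) (Fin (N i)) ℚ) (Pol : Set (Poly ℚ N m))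
    (β : ∀ i, G →* Matrix (Fin (N i)) (Fin (N i)) ℤ_[p]) (α : G →* Matrix (Fin m) (Fin m) ℚ) :
    Prop :=
  ∀ (x : ∀ i, Matrix (Fin (N i)) (Fin (N i)) ℂ) (a : Matrix (Fin m) (Fin m) ℂ),
    (∀ i, (x i).det ≠ 0) → a.det ≠ 0 → Satisfies Pol x a →
    ∃ σ : G, a = (α σ).map (algebraMap ℚ ℂ) ∧
      ∀ i, (J i)ᵀ = J i → ((x i).det = 1 ↔ (β i σ).det = 1)

end residual

/-- both conjectures at `ℓ` -/
def BothConjectures {ℓ : ℕ} [Fact ℓ.Prime] {Γ : Type} [Group Γ]
    (J : ∀ i, Matrix (Fin (N i)) (Fin (N i)) ℚ) (Pol : Set (Poly ℚ N m))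
    (β : ∀ i, Γ →* Matrix (Fin (N i)) (Fin (N i)) ℤ_[ℓ]) (α : Γ →* Matrix (Fin m) (Fin m) ℚ) :
    Prop :=
  MotivicTate Pol β α ∧ MotivicSatoTate J Pol β α

theorem both_of_tate {ℓ : ℕ} [Fact ℓ.Prime] {Γ : Type} [Group Γ]
    {J : ∀ i, Matrix (Fin (N i)) (Fin (N i)) ℚ} {Pol : Set (Poly ℚ N m)}
    {β : ∀ i, Γ →* Matrix (Fin (N i)) (Fin (N i)) ℤ_[ℓ]} {α : Γ →* Matrix (Fin m) (Fin m) ℚ}
    (hJ : ∀ i, (J i).det ≠ 0) (h : MotivicTate Pol β α) : BothConjectures J Pol β α := by
  refine ⟨h, fun x a ha hx => h x a (fun i h0 => ?_) ha⟩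
  have h1 := congrArg Matrix.det (hx i)
  rw [det_mul, h0, mul_zero] at h1
  exact Pool.Agent.R932.PO.det_map_ne (algebraMap ℚ (AlgebraicClosure ℚ_[ℓ])) (hJ i) h1.symm

/-- **The motivic Sato-Tate conjecture from residual representations modulo one prime number.** -/
theorem result [Fintype ι] [DecidableEq ι] {K : Type} [Field K] [NumberField K] {Γ : Type} [Group Γ]
    [TopologicalSpace Γ] [IsTopologicalGroup Γ] [CompactSpace Γ]
    (s : AbsoluteGaloisGroup K →* Γ) (S : Set (HeightOneSpectrum (𝓞 K))) (w : ι → ℕ)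
    (P : ι → HeightOneSpectrum (𝓞 K) → Polynomial ℚ)
    (J : ∀ i, Matrix (Fin (N i)) (Fin (N i)) ℚ) (α : Γ →* Matrix (Fin m) (Fin m) ℚ)
    (κ : ∀ (ℓ : ℕ) [Fact ℓ.Prime], Γ →* ℚ_[ℓ])
    (β : ∀ (i : ι) (ℓ : ℕ) [Fact ℓ.Prime], Γ →* Matrix (Fin (N i)) (Fin (N i)) ℤ_[ℓ])
    (Pol : Set (Poly ℚ N m)) (hsys : IsSystem s S w P J α κ β Pol)
    -- one prime number
    (p : ℕ) [Fact p.Prime] (hp : 5 ≤ p) (hsuit : ∀ i, IsSuitable (J i) p)
    (B : ∀ i, Matrix (Fin (N i)) (Fin (N i)) ℤ_[p])
    (hres : ResidualHypothesis J B fun i => (β i p).comp s)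
    (hcomp : MeetsEveryComponent J Pol (fun i => (β i p).comp s) (α.comp s)) :
    -- the prime number `p`
    BothConjectures J Pol (fun i => (β i p).comp s) (α.comp s) ∧
    -- 100 percent of the prime numbers
    HasDensityZero {ℓ | ∃ _ : Fact ℓ.Prime,
      ¬ (BothConjectures J Pol (fun i => (β i ℓ).comp s) (α.comp s) ∧
        BothConjectures J Pol (fun i => β i ℓ) α)} ∧
    -- every prime number
    ∀ (ℓ : ℕ) [Fact ℓ.Prime],
      (MotivicSatoTate J Pol (fun i => (β i ℓ).comp s) (α.comp s) ↔
        ∀ i, IsAbsolutelyIrreducible ((β i ℓ).comp s)) ∧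
      (MotivicTate Pol (fun i => (β i ℓ).comp s) (α.comp s) ↔
        ∀ i, IsAbsolutelyIrreducible ((β i ℓ).comp s)) ∧
      (MotivicSatoTate J Pol (fun i => (β i ℓ).comp s) (α.comp s) →
        BothConjectures J Pol (fun i => β i ℓ) α) := by
  have hdet : ∀ i, (J i).det ≠ 0 := fun i => (hsys.form i).1
  have H : ∀ kd : ι → Pool.Agent.R932.PO.Kind, (∀ i, Pool.Agent.R932.PO.Fits (kd i) (J i)) →
      Pool.Agent.U273.AI.Setup s S kd w P J α κ (fun i ℓ _ => rational (β i ℓ)) Pol := by
    intro kd hkd
    exact {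
      hS := hsys.finite
      hs := hsys.point
      hfit := hkd
      hdet := hdet
      hw := hsys.weight
      hα := hsys.artin
      hκ := fun ℓ _ => (hsys.cyclotomic ℓ).2
      hρc := fun i ℓ _ => by
        have h1 : Continuous fun M : Matrix (Fin (N i)) (Fin (N i)) ℤ_[ℓ] =>
            M.map (algebraMap ℤ_[ℓ] ℚ_[ℓ]) :=
          Continuous.matrix_map continuous_id continuous_subtype_val
        exact h1.comp (hsys.continuous i ℓ)
      hmult := fun i ℓ _ g => hsys.similitude i ℓ g
      hfrob := fun i ℓ _ => hsys.frobenius i ℓ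
      hpol := hsys.motivic_le
      hbig := hsys.motivic_ge
      hgal := fun ℓ _ σ => hsys.galois ℓ σ }
  have hcomp' : Pool.Agent.U175.LP.MeetsAll Pol J
      (fun i => (rational (β i p)).comp s) (α.comp s) := by
    intro x a hx ha hPol
    obtain ⟨σ, h1, h2⟩ := hcomp x a hx ha hPol
    refine ⟨σ, h1, fun i hi => (h2 i hi).trans ?_⟩
    have h3 : ((rational (β i p)).comp s σ).det = algebraMap ℤ_[p] ℚ_[p] ((β i p).comp s σ).det := by
      rw [RingHom.map_det]
      rfl
    rw [h3]
    constructor
    · intro h4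
      rw [h4, map_one]
    · intro h4
      exact (IsFractionRing.injective ℤ_[p] ℚ_[p]) (by rw [h4, map_one])
  have hres' : Pool.Agent.U175.LP.ResF B (fun i => (β i p).comp s) := by
    refine ⟨fun i => (hres.form i).2, hres.primitive, fun i => ?_, fun i hi => hres.unipotent i ?_⟩
    · obtain ⟨g, ⟨v, c, hc, hv, h1⟩, h2⟩ := hres.transvection i
      exact ⟨g, v, c, hc, hv, h1, h2⟩
    · obtain ⟨⟨c, hc, h1⟩, -⟩ := hres.form i
      have h2 : c • (baseChange ℚ_[p] (J i))ᵀ = c • baseChange ℚ_[p] (J i) := by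
        rw [← transpose_smul, ← h1, ← transpose_map, hi]
      have h3 := smul_right_injective _ hc h2
      ext a b
      exact (algebraMap ℚ ℚ_[p]).injective (congrFun (congrFun h3 a) b)
  obtain ⟨h1, h2, h3⟩ := Pool.Agent.U175.LP.residual_main' (fun i => hsys.form i) H p hp hsuit
    (R := fun i => (β i p).comp s) (JI := B) (fun i g => rfl) (fun i => (hres.form i).1) hres' hcomp'
  have hsato : ∀ (ℓ : ℕ) [Fact ℓ.Prime],
      MotivicSatoTate J Pol (fun i => (β i ℓ).comp s) (α.comp s) ↔
        Pool.Agent.U175.LP.MSatoA Pol J (fun i => (rational (β i ℓ)).comp s) (α.comp s) := by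
    intro ℓ _
    have hup : ∀ i, Pool.Agent.R932.GR.up (Pool.Agent.R932.PO.JL J ℓ) i =
        baseChange (AlgebraicClosure ℚ_[ℓ]) (J i) := by
      intro i
      ext k l
      show algebraMap ℚ_[ℓ] (AlgebraicClosure ℚ_[ℓ]) (algebraMap ℚ ℚ_[ℓ] (J i k l)) =
        algebraMap ℚ (AlgebraicClosure ℚ_[ℓ]) (J i k l)
      have h7 : (algebraMap ℚ_[ℓ] (AlgebraicClosure ℚ_[ℓ])).comp (algebraMap ℚ ℚ_[ℓ]) =
        algebraMap ℚ (AlgebraicClosure ℚ_[ℓ]) := Subsingleton.elim _ _
      exact RingHom.congr_fun h7 _
    constructor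
    · intro h x a hx ha hiso
      exact h x a ha fun i => by rw [← hup]; exact hiso i
    · intro h x a ha hiso
      refine h x a (fun i h0 => ?_) ha fun i => by rw [hup]; exact hiso i
      have h1 := congrArg Matrix.det (hiso i)
      rw [det_mul, h0, mul_zero] at h1
      exact Pool.Agent.R932.PO.det_map_ne (algebraMap ℚ (AlgebraicClosure ℚ_[ℓ])) (hdet i) h1.symm
  refine ⟨both_of_tate hdet h1, ?_, fun ℓ _ => ?_⟩
  · refine Pool.Agent.Y142.ZI.DensityZero.mono h2 ?_
    rintro ℓ ⟨hℓ, hno⟩
    exact ⟨hℓ, fun h => hno ⟨both_of_tate hdet h.1, both_of_tate hdet h.2⟩⟩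
  · obtain ⟨h4, h5, h6⟩ := h3 ℓ
    refine ⟨(hsato ℓ).trans h4, h5, fun h => ?_⟩
    exact both_of_tate hdet (h6 (h5.2 (h4.1 ((hsato ℓ).1 h))))

end

end Pool.Agent.Results.MP_d61fbb_ag.ResidualFamilies
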